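import Pool.Agent.H45.Nev.LeafDefs

/-!
# Flow boxes of a singular foliation (part G for MP_343136_an)
-/

open MeasureTheory Set Metric Filter Topology
open scoped ContDiff Manifold

namespace Pool.Agent.H91.Nev

open Pool.Agent.H45.Nev

variable {E : Type*} [NormedAddCommGroup E] [NormedSpace ℂ E]
  {M : Type*} [TopologicalSpace M] [ChartedSpace E M]

section aff

variable {Y : Type*} [NormedAddCommGroup Y] [NormedSpace ℂ Y]

/-- an affine change of coordinates -/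
noncomputable def affB (A : E ≃L[ℂ] ℂ × Y) (p0 : ℂ × Y) (r : ℂ) (hr : r ≠ 0) : E ≃ₜ ℂ × Y where
  toFun y := r⁻¹ • (A y - p0)
  invFun q := A.symm (p0 + r • q)
  left_inv y := by
    beta_reduce
    rw [smul_smul, mul_inv_cancel₀ hr, one_smul, add_sub_cancel, A.symm_apply_apply]
  right_inv q := by
    beta_reduce
    rw [A.apply_symm_apply, add_sub_cancel_left, smul_smul, inv_mul_cancel₀ hr, one_smul]
  continuous_toFun := by fun_prop
  continuous_invFun := by fun_prop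

lemma affB_apply (A : E ≃L[ℂ] ℂ × Y) (p0 : ℂ × Y) (r : ℂ) (hr : r ≠ 0) (y : E) :
    affB A p0 r hr y = r⁻¹ • (A y - p0) := rfl

lemma affB_symm_apply (A : E ≃L[ℂ] ℂ × Y) (p0 : ℂ × Y) (r : ℂ) (hr : r ≠ 0) (q : ℂ × Y) :
    (affB A p0 r hr).symm q = A.symm (p0 + r • q) := rfl

end aff

/-- charts are differentiable -/
lemma mdiff_of_max [IsManifold 𝓘(ℂ, E) ω M] {e : OpenPartialHomeomorph M E}
    (he : e ∈ IsManifold.maximalAtlas 𝓘(ℂ, E) ω M) :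
    e.MDifferentiable 𝓘(ℂ, E) 𝓘(ℂ, E) :=
  ⟨fun _ hx => ((contMDiffAt_of_mem_maximalAtlas he hx).mdifferentiableAt
      (by simp)).mdifferentiableWithinAt,
   fun _ hy => (((contMDiffOn_symm_of_mem_maximalAtlas he).contMDiffAt
      (e.open_target.mem_nhds hy)).mdifferentiableAt (by simp)).mdifferentiableWithinAt⟩

/-- the metric density of a box -/
noncomputable def bden {Y : Type*} [TopologicalSpace Y] (κ : Form11 E M)
    (b : OpenPartialHomeomorph M (ℂ × Y)) (q : ℂ × Y) : ℝ :=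
  (κ.1 (b.symm (q.1, q.2)) (mfderiv 𝓘(ℂ, ℂ) 𝓘(ℂ, E) (fun z => b.symm (z, q.2)) q.1 (1 : ℂ))
     (mfderiv 𝓘(ℂ, ℂ) 𝓘(ℂ, E) (fun z => b.symm (z, q.2)) q.1 (1 : ℂ))).re

/-- flow boxes -/
structure GoodBox (F : SingFoliation E M) (κ : Form11 E M) {Y : Type*} [NormedAddCommGroup Y]
    [NormedSpace ℂ Y] (b : OpenPartialHomeomorph M (ℂ × Y)) (W : Set Y) : Prop where
  target_eq : b.target = ball (0 : ℂ) 1 ×ˢ W
  source_sub : b.source ⊆ F.singᶜ
  curve : ∀ t ∈ W, ∀ z ∈ ball (0 : ℂ) 1,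
    MDifferentiableAt 𝓘(ℂ, ℂ) 𝓘(ℂ, E) (fun z => b.symm (z, t)) z ∧
        F.Tangent (b.symm (z, t)) (mfderiv 𝓘(ℂ, ℂ) 𝓘(ℂ, E) (fun z => b.symm (z, t)) z (1 : ℂ)) ∧
        mfderiv 𝓘(ℂ, ℂ) 𝓘(ℂ, E) (fun z => b.symm (z, t)) z (1 : ℂ) ≠ 0
  cd : ContMDiffOn 𝓘(ℝ, E) 𝓘(ℝ, ℂ × Y) ∞ b b.source
  cds : ContMDiffOn 𝓘(ℝ, ℂ × Y) 𝓘(ℝ, E) ∞ b.symm b.target
  cont : ContinuousOn (bden κ b) b.target
  bdd : ∃ lo hi : ℝ, 0 < lo ∧ ∀ q ∈ b.target, lo ≤ bden κ b q ∧ bden κ b q ≤ hi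
  md : ∀ x ∈ b.source, MDifferentiableAt 𝓘(ℂ, E) 𝓘(ℂ, ℂ × Y) b x
  snd_zero : ∀ x ∈ b.source, ∀ w : TangentSpace 𝓘(ℂ, E) x, F.Tangent x w →
    (mfderiv 𝓘(ℂ, E) 𝓘(ℂ, ℂ × Y) b x w : ℂ × Y).2 = 0

/-- the chart of a flow box -/
noncomputable def mkBox {Y : Type*} [NormedAddCommGroup Y] [NormedSpace ℂ Y]
    (e : OpenPartialHomeomorph M E) (B : E ≃ₜ ℂ × Y) : OpenPartialHomeomorph M (ℂ × Y) :=
  ((e.transHomeomorph B).symm.restrOpen (ball 0 1) isOpen_ball).symm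

section mk
omit [NormedSpace ℂ E] [ChartedSpace E M]
variable {Y : Type*} [NormedAddCommGroup Y] [NormedSpace ℂ Y]
    (e : OpenPartialHomeomorph M E) (B : E ≃ₜ ℂ × Y)

lemma mkBox_apply (x : M) : mkBox e B x = B (e x) := rfl

lemma mkBox_symm_apply (q : ℂ × Y) : (mkBox e B).symm q = e.symm (B.symm q) := rfl

lemma mkBox_target : (mkBox e B).target = B.symm ⁻¹' e.target ∩ ball 0 1 := rfl

lemma mkBox_source : (mkBox e B).source = e.source ∩ (fun x => B (e x)) ⁻¹' ball 0 1 := rfl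

end mk

/-- At a regular point, the generators are nonzero. -/
lemma exists_goodBox [FiniteDimensional ℂ E] [IsManifold 𝓘(ℂ, E) ω M]
    (F : SingFoliation E M) (κ : Form11 E M) (hκ : IsHermitianMetric κ) {m : ℕ}
    (hm : Module.finrank ℂ E = m + 1) (x : M) (hx : x ∉ F.sing) :
    ∃ (b : OpenPartialHomeomorph M (ℂ × (Fin m → ℂ))) (W : Set (Fin m → ℂ)),
      x ∈ b.source ∧ GoodBox F κ b W := by
  obtain ⟨i0, hi0⟩ := F.cover x
  have hreg : ∃ i, x ∈ F.U i ∧ F.X i x ≠ 0 := ⟨i0, hi0, fun h => hx ⟨i0, hi0, h⟩⟩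
  obtain ⟨e, he, hxe, v, hv, hF⟩ := F.flowBox x hreg
  -- linear coordinates
  have hfr : Module.finrank ℂ E = Module.finrank ℂ (ℂ × (Fin m → ℂ)) := by
    rw [hm, Module.finrank_prod, Module.finrank_self, Module.finrank_fin_fun, add_comm]
  obtain ⟨A, hA⟩ : ∃ A : E ≃L[ℂ] ℂ × (Fin m → ℂ), A v = (1, 0) := by
    let A0 : E ≃L[ℂ] ℂ × (Fin m → ℂ) := ContinuousLinearEquiv.ofFinrankEq hfr
    have h1 : A0 v ≠ 0 := by
      intro h
      exact hv (A0.injective (by rw [h, map_zero]))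
    have h2 : ((1 : ℂ), (0 : Fin m → ℂ)) ≠ 0 := by
      intro h
      exact one_ne_zero (congrArg Prod.fst h)
    obtain ⟨T, hT⟩ := SeparatingDual.exists_continuousLinearEquiv_apply_eq (R := ℂ) h1 h2
    exact ⟨A0.trans T, hT⟩
  set p0 : ℂ × (Fin m → ℂ) := A (e x) with hp0
  -- radius
  have hopen : IsOpen (A.symm ⁻¹' e.target) := e.open_target.preimage A.symm.continuous
  have hmem : p0 ∈ A.symm ⁻¹' e.target := by
    simp only [mem_preimage, hp0, A.symm_apply_apply]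
    exact e.map_source hxe
  obtain ⟨ε, hε, hεb⟩ := Metric.isOpen_iff.1 hopen p0 hmem
  set r : ℝ := ε / 2 with hr
  have hrpos : 0 < r := by positivity
  have hrc : (r : ℂ) ≠ 0 := by exact_mod_cast hrpos.ne'
  set B := affB A p0 (r : ℂ) hrc with hB
  have hBt : ∀ q ∈ closedBall (0 : ℂ × (Fin m → ℂ)) 1, B.symm q ∈ e.target := by
    intro q hq
    have : p0 + (r : ℂ) • q ∈ ball p0 ε := by
      rw [mem_ball, dist_eq_norm, add_sub_cancel_left, norm_smul]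
      rw [mem_closedBall, dist_zero_right] at hq
      have : ‖(r : ℂ)‖ = r := by
        rw [Complex.norm_real, Real.norm_of_nonneg hrpos.le]
      rw [this]
      nlinarith
    exact hεb this
  have hBt' : ∀ q ∈ ball (0 : ℂ × (Fin m → ℂ)) 1, B.symm q ∈ e.target := fun q hq =>
    hBt q (ball_subset_closedBall hq)
  have hmd := mdiff_of_max he
  have htar : (mkBox e B).target = ball (0 : ℂ × (Fin m → ℂ)) 1 := by
    rw [mkBox_target]
    exact inter_eq_self_of_subset_right hBt'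
  have hrv : (r : ℂ) • v ≠ 0 := smul_ne_zero hrc hv
  -- the derivative of `e.symm`
  have hcs : ∀ y ∈ e.target, ∀ w : E,
      (mfderiv 𝓘(ℂ, E) 𝓘(ℂ, E) e (e.symm y) (mfderiv 𝓘(ℂ, E) 𝓘(ℂ, E) e.symm y w) : E) = w := by
    intro y hy w
    exact congrArg (fun L : E →L[ℂ] E => L w) (hmd.comp_symm_deriv hy)
  have htan : ∀ y ∈ e.target, ∀ c : ℂ,
      F.Tangent (e.symm y) (mfderiv 𝓘(ℂ, E) 𝓘(ℂ, E) e.symm y (c • v)) := by
    intro y hy c
    obtain ⟨i, hi⟩ := F.cover (e.symm y)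
    obtain ⟨c', hc', hX⟩ := hF i (e.symm y) ⟨e.map_target hy, hi⟩
    refine ⟨i, hi, c / c', ?_⟩
    apply hmd.mfderiv_injective (e.map_target hy)
    rw [map_smul]
    refine (hcs y hy (c • v)).trans ?_
    rw [hX]
    show c • v = (c / c') • (c' • v)
    rw [smul_smul, div_mul_cancel₀ _ hc']
  have hne : ∀ y ∈ e.target, (mfderiv 𝓘(ℂ, E) 𝓘(ℂ, E) e.symm y ((r : ℂ) • v)) ≠ 0 := by
    intro y hy h
    have h1 := hcs y hy ((r : ℂ) • v)
    rw [h, map_zero] at h1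
    exact hrv h1.symm
  -- the curves
  have hcurve : ∀ z : ℂ, ∀ t : Fin m → ℂ, (z, t) ∈ ball (0 : ℂ × (Fin m → ℂ)) 1 →
      HasMFDerivAt 𝓘(ℂ, ℂ) 𝓘(ℂ, E) (fun z => (mkBox e B).symm (z, t)) z
        ((mfderiv 𝓘(ℂ, E) 𝓘(ℂ, E) e.symm (B.symm (z, t)) : E →L[ℂ] E) ∘L
          ((A.symm : (ℂ × (Fin m → ℂ)) →L[ℂ] E) ∘L
            ((r : ℂ) • ContinuousLinearMap.inl ℂ ℂ (Fin m → ℂ)))) := by
    intro z t hzt
    have h1 : HasFDerivAt (fun z : ℂ => B.symm (z, t))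
        ((A.symm : (ℂ × (Fin m → ℂ)) →L[ℂ] E) ∘L
            ((r : ℂ) • ContinuousLinearMap.inl ℂ ℂ (Fin m → ℂ))) z := by
      have h2 : HasFDerivAt (fun z : ℂ => p0 + (r : ℂ) • ((z, t) : ℂ × (Fin m → ℂ)))
          ((r : ℂ) • ContinuousLinearMap.inl ℂ ℂ (Fin m → ℂ)) z :=
        ((hasFDerivAt_prodMk_left z t).const_smul (r : ℂ)).const_add p0
      exact HasFDerivAt.comp (g := A.symm)
        (f := fun z : ℂ => p0 + (r : ℂ) • ((z, t) : ℂ × (Fin m → ℂ))) z A.symm.hasFDerivAt h2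
    have h3 : HasMFDerivAt 𝓘(ℂ, E) 𝓘(ℂ, E) e.symm (B.symm (z, t))
        (mfderiv 𝓘(ℂ, E) 𝓘(ℂ, E) e.symm (B.symm (z, t))) :=
      (hmd.mdifferentiableAt_symm (hBt' _ hzt)).hasMFDerivAt
    exact HasMFDerivAt.comp (g := e.symm) (f := fun z : ℂ => B.symm (z, t)) z h3 h1.hasMFDerivAt
  have hcurve1 : ∀ z : ℂ, ∀ t : Fin m → ℂ, (z, t) ∈ ball (0 : ℂ × (Fin m → ℂ)) 1 →
      (mfderiv 𝓘(ℂ, ℂ) 𝓘(ℂ, E) (fun z => (mkBox e B).symm (z, t)) z (1 : ℂ) : E) =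
      (mfderiv 𝓘(ℂ, E) 𝓘(ℂ, E) e.symm (B.symm (z, t)) ((r : ℂ) • v) : E) := by
    intro z t hzt
    rw [(hcurve z t hzt).mfderiv]
    show (mfderiv 𝓘(ℂ, E) 𝓘(ℂ, E) e.symm (B.symm (z, t)) : E →L[ℂ] E)
      (A.symm ((r : ℂ) • ((1 : ℂ), (0 : Fin m → ℂ)))) = _
    rw [map_smul, ← hA, A.symm_apply_apply]
  -- the density
  set g : ℂ × (Fin m → ℂ) → ℝ := fun q => (inChart e κ.1 ((r : ℂ) • v) ((r : ℂ) • v)
    (B.symm q)).re with hg
  have hden : ∀ q ∈ ball (0 : ℂ × (Fin m → ℂ)) 1, bden κ (mkBox e B) q = g q := by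
    intro q hq
    have h1 := hcurve1 q.1 q.2 hq
    show (κ.1 (e.symm (B.symm q)) _ _).re = (κ.1 (e.symm (B.symm q)) _ _).re
    rw [h1]
  have hgpos : ∀ q ∈ closedBall (0 : ℂ × (Fin m → ℂ)) 1, 0 < g q := by
    intro q hq
    exact (hκ (e.symm (B.symm q)) _ (hne _ (hBt q hq))).1
  have hgcont : ContinuousOn g (closedBall (0 : ℂ × (Fin m → ℂ)) 1) := by
    have h1 : ContinuousOn (inChart e κ.1 ((r : ℂ) • v) ((r : ℂ) • v)) e.target :=
      (κ.2 e he _ _).continuousOn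
    exact Complex.continuous_re.comp_continuousOn
      (h1.comp B.symm.continuous.continuousOn hBt)
  have hcpt : IsCompact (closedBall (0 : ℂ × (Fin m → ℂ)) 1) := isCompact_closedBall _ _
  have hnon : (closedBall (0 : ℂ × (Fin m → ℂ)) 1).Nonempty := nonempty_closedBall.2 zero_le_one
  obtain ⟨q1, hq1, hq1m⟩ := hcpt.exists_isMinOn hnon hgcont
  obtain ⟨q2, hq2, hq2m⟩ := hcpt.exists_isMaxOn hnon hgcont
  have hball : ball (0 : ℂ × (Fin m → ℂ)) 1 = ball (0 : ℂ) 1 ×ˢ ball (0 : Fin m → ℂ) 1 :=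
    (ball_prod_same 0 0 1).symm
  have := isManifold_real (E := E) (M := M)
  have hbox : ∀ y ∈ e.source, HasMFDerivAt 𝓘(ℂ, E) 𝓘(ℂ, ℂ × (Fin m → ℂ)) (mkBox e B) y
      (((r : ℂ)⁻¹ • (A : E →L[ℂ] ℂ × (Fin m → ℂ))) ∘L
        (mfderiv 𝓘(ℂ, E) 𝓘(ℂ, E) e y : E →L[ℂ] E)) := by
    intro y hy
    have h1 : HasFDerivAt B ((r : ℂ)⁻¹ • (A : E →L[ℂ] ℂ × (Fin m → ℂ))) (e y) := by
      have h2 : HasFDerivAt (fun y => A y - p0) (A : E →L[ℂ] ℂ × (Fin m → ℂ)) (e y) :=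
        A.hasFDerivAt.sub_const p0
      exact h2.const_smul (r : ℂ)⁻¹
    exact HasMFDerivAt.comp (g := B) (f := e) y h1.hasMFDerivAt
      (hmd.mdifferentiableAt hy).hasMFDerivAt
  refine ⟨mkBox e B, ball 0 1, ?_, ?_, ?_, ?_, ?_, ?_, ?_, ?_, ?_, ?_⟩
  · -- x in the source
    rw [mkBox_source]
    refine ⟨hxe, ?_⟩
    show (r : ℂ)⁻¹ • (A (e x) - p0) ∈ ball 0 1
    rw [hp0, sub_self, smul_zero]
    exact mem_ball_self one_pos
  · rw [htar, hball]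
  · -- regular
    intro y hy
    rintro ⟨i, hi, h0⟩
    obtain ⟨c, hc, hX⟩ := hF i y ⟨hy.1, hi⟩
    rw [h0, map_zero] at hX
    exact smul_ne_zero hc hv hX.symm
  · -- curves
    intro t ht z hz
    have hzt : (z, t) ∈ ball (0 : ℂ × (Fin m → ℂ)) 1 := by
      rw [hball]; exact ⟨hz, ht⟩
    refine ⟨(hcurve z t hzt).mdifferentiableAt, ?_, ?_⟩
    · have h1 := htan (B.symm (z, t)) (hBt' _ hzt) (r : ℂ)
      have h2 := hcurve1 z t hzt
      show F.Tangent (e.symm (B.symm (z, t))) _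
      rw [h2]
      exact h1
    · have h2 := hcurve1 z t hzt
      intro h
      apply hne (B.symm (z, t)) (hBt' _ hzt)
      exact h2.symm.trans h
  · -- smoothness
    have h1 : ContMDiffOn 𝓘(ℝ, E) 𝓘(ℝ, E) ∞ e (mkBox e B).source :=
      (contMDiffOn_of_mem_maximalAtlas (mem_maximalAtlas_real he)).mono fun y hy => hy.1
    have h2 : ContDiff ℝ ∞ B := by
      show ContDiff ℝ ∞ fun y => (r : ℂ)⁻¹ • (A y - p0)
      have h3 : ContDiff ℝ ∞ A := (A.contDiff (n := ∞)).restrict_scalars ℝ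
      exact (h3.sub contDiff_const).const_smul _
    exact h2.contMDiff.comp_contMDiffOn h1
  · have h1 : ContMDiffOn 𝓘(ℝ, E) 𝓘(ℝ, E) ∞ e.symm e.target :=
      contMDiffOn_symm_of_mem_maximalAtlas (mem_maximalAtlas_real he)
    have h2 : ContDiff ℝ ∞ B.symm := by
      show ContDiff ℝ ∞ fun q => A.symm (p0 + (r : ℂ) • q)
      have h3 : ContDiff ℝ ∞ A.symm := (A.symm.contDiff (n := ∞)).restrict_scalars ℝ
      exact h3.comp (contDiff_const.add (contDiff_id.const_smul _))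
    exact h1.comp (h2.contMDiff.contMDiffOn (s := (mkBox e B).target)) fun q hq => by
      rw [htar] at hq
      exact hBt' q hq
  · rw [htar]
    exact (hgcont.mono ball_subset_closedBall).congr hden
  · refine ⟨g q1, g q2, hgpos q1 hq1, fun q hq => ?_⟩
    rw [htar] at hq
    rw [hden q hq]
    exact ⟨hq1m (ball_subset_closedBall hq), hq2m (ball_subset_closedBall hq)⟩
  · intro y hy
    exact (hbox y hy.1).mdifferentiableAt
  · rintro y hy w ⟨i, hi, c, hw⟩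
    obtain ⟨c', hc', hX⟩ := hF i y ⟨hy.1, hi⟩
    rw [(hbox y hy.1).mfderiv, hw]
    show ((r : ℂ)⁻¹ • A (mfderiv 𝓘(ℂ, E) 𝓘(ℂ, E) e y (c • F.X i y) : E)).2 = 0
    rw [map_smul, hX]
    show ((r : ℂ)⁻¹ • A (c • c' • v)).2 = 0
    rw [map_smul, map_smul, hA]
    simp

lemma compat_of_good {F : SingFoliation E M} {κ : Form11 E M} {Y : Type*}
    [NormedAddCommGroup Y] [NormedSpace ℂ Y] {b b' : OpenPartialHomeomorph M (ℂ × Y)}
    {W W' : Set Y} (hb : GoodBox F κ b W) (hb' : GoodBox F κ b' W') (p : ℂ × Y)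
    (hp : p ∈ b'.target) (hps : b'.symm p ∈ b.source) :
    ∀ᶠ z in 𝓝 p.1, (b (b'.symm (z, p.2))).2 = (b (b'.symm p)).2 := by
  obtain ⟨z0, t⟩ := p
  rw [hb'.target_eq] at hp
  obtain ⟨hz0, ht⟩ := hp
  simp only at hz0 ht ⊢
  have hc : ContinuousAt (fun z => b'.symm (z, t)) z0 := (hb'.curve t ht z0 hz0).1.continuousAt
  have hev : ∀ᶠ z in 𝓝 z0, z ∈ ball (0 : ℂ) 1 ∧ b'.symm (z, t) ∈ b.source := by
    filter_upwards [isOpen_ball.mem_nhds hz0,
      hc.preimage_mem_nhds (b.open_source.mem_nhds hps)] with z h1 h2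
    exact ⟨h1, h2⟩
  have hder : ∀ᶠ z in 𝓝 z0, HasFDerivAt (fun z => (b (b'.symm (z, t))).2) (0 : ℂ →L[ℂ] Y) z := by
    filter_upwards [hev] with z hz
    obtain ⟨h1, h2, -⟩ := hb'.curve t ht z hz.1
    have h3 := hb.snd_zero _ hz.2 _ h2
    have h4 : HasMFDerivAt 𝓘(ℂ, ℂ) 𝓘(ℂ, ℂ × Y) (b ∘ fun z => b'.symm (z, t)) z _ :=
      HasMFDerivAt.comp (g := b) (f := fun z => b'.symm (z, t)) z
        (hb.md _ hz.2).hasMFDerivAt h1.hasMFDerivAt
    have h5 := h4.hasFDerivAt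
    have h6 := (ContinuousLinearMap.snd ℂ ℂ Y).hasFDerivAt.comp z h5
    refine h6.congr_fderiv ?_
    ext
    exact h3
  obtain ⟨ε, hε, hball⟩ := Metric.eventually_nhds_iff_ball.1 hder
  filter_upwards [ball_mem_nhds z0 hε] with z hz
  have := (convex_ball z0 ε).is_const_of_fderivWithin_eq_zero (𝕜 := ℂ)
    (f := fun z => (b (b'.symm (z, t))).2)
    (fun w hw => (hball w hw).differentiableAt.differentiableWithinAt)
    (fun w hw => (hball w hw).hasFDerivWithinAt.fderivWithin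
      (isOpen_ball.uniqueDiffWithinAt hw)) hz (mem_ball_self hε)
  exact this

/-- G. Flow boxes. -/
theorem exists_boxes [FiniteDimensional ℂ E] [IsManifold 𝓘(ℂ, E) ω M]
    [CompactSpace M] [T2Space M] (F : SingFoliation E M) (κ : Form11 E M)
    (hκ : IsHermitianMetric κ) :
    ∃ (m : ℕ) (Λ : Lam M (Fin m → ℂ)), Λ.reg = F.singᶜ ∧
      (∀ i, ∀ t ∈ Λ.W i, ∀ z ∈ ball (0 : ℂ) 1,
        MDifferentiableAt 𝓘(ℂ, ℂ) 𝓘(ℂ, E) (fun z => (Λ.box i).symm (z, t)) z ∧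
        F.Tangent ((Λ.box i).symm (z, t))
          (mfderiv 𝓘(ℂ, ℂ) 𝓘(ℂ, E) (fun z => (Λ.box i).symm (z, t)) z (1 : ℂ)) ∧
        mfderiv 𝓘(ℂ, ℂ) 𝓘(ℂ, E) (fun z => (Λ.box i).symm (z, t)) z (1 : ℂ) ≠ 0 ∧
        Λ.ρ i (z, t) = (κ.1 ((Λ.box i).symm (z, t))
          (mfderiv 𝓘(ℂ, ℂ) 𝓘(ℂ, E) (fun z => (Λ.box i).symm (z, t)) z (1 : ℂ))
          (mfderiv 𝓘(ℂ, ℂ) 𝓘(ℂ, E) (fun z => (Λ.box i).symm (z, t)) z (1 : ℂ))).re) ∧
      (∀ i, ContMDiffOn 𝓘(ℝ, E) 𝓘(ℝ, ℂ × (Fin m → ℂ)) ∞ (Λ.box i) (Λ.box i).source) ∧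
      (∀ i, ContMDiffOn 𝓘(ℝ, ℂ × (Fin m → ℂ)) 𝓘(ℝ, E) ∞ (Λ.box i).symm (Λ.box i).target) := by
  rcases (F.singᶜ).eq_empty_or_nonempty with hemp | ⟨x0, hx0⟩
  · refine ⟨0, ⟨Empty, inferInstance, fun i => i.elim, fun i => i.elim, fun i => i.elim,
      fun i => i.elim, fun i => i.elim, fun i => i.elim, fun i => i.elim, fun i => i.elim,
      fun i => i.elim, fun i => i.elim, fun i => i.elim⟩, ?_, fun i => i.elim, fun i => i.elim,
      fun i => i.elim⟩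
    rw [hemp, Lam.reg]
    exact iUnion_of_empty _
  · -- dimension
    obtain ⟨m, hm⟩ : ∃ m, Module.finrank ℂ E = m + 1 := by
      obtain ⟨i, hi⟩ := F.cover x0
      have h1 : F.X i x0 ≠ 0 := fun h => hx0 ⟨i, hi, h⟩
      have : Nontrivial E := ⟨⟨(F.X i x0 : E), 0, h1⟩⟩
      exact Nat.exists_eq_succ_of_ne_zero (Module.finrank_pos (R := ℂ) (M := E)).ne'
    have hloc := fun x : (F.singᶜ : Set M) => exists_goodBox F κ hκ hm x.1 x.2
    choose b W hxb hgood using hloc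
    have : ProperSpace E := FiniteDimensional.proper ℂ E
    have : SecondCountableTopology M := ChartedSpace.secondCountable_of_sigmaCompact E M
    obtain ⟨T, hTc, hT⟩ := TopologicalSpace.isOpen_iUnion_countable (fun x => (b x).source)
      (fun x => (b x).open_source)
    have hall : ⋃ x, (b x).source = F.singᶜ := by
      apply Subset.antisymm
      · exact iUnion_subset fun x => (hgood x).source_sub
      · intro x hx
        exact mem_iUnion.2 ⟨⟨x, hx⟩, hxb _⟩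
    have hTne : T.Nonempty := by
      by_contra h
      rw [not_nonempty_iff_eq_empty] at h
      rw [h] at hT
      have : x0 ∈ ⋃ x, (b x).source := by rw [hall]; exact hx0
      rw [← hT] at this
      simp at this
    obtain ⟨f, hf⟩ := hTc.exists_eq_range hTne
    choose lo hi hlo hbd using fun x => (hgood x).bdd
    refine ⟨m, ⟨ℕ, inferInstance, fun n => b (f n), fun n => W (f n),
      fun n => (hgood (f n)).target_eq, fun n => bden κ (b (f n)), fun n => lo (f n),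
      fun n => hi (f n), fun n => hlo (f n), fun n => (hgood (f n)).cont,
      fun n p hp => (hbd (f n) p hp).1, fun n p hp => (hbd (f n) p hp).2,
      fun i j p hp hps => compat_of_good (hgood (f i)) (hgood (f j)) p hp hps⟩,
      ?_, ?_, ?_, ?_⟩
    · rw [Lam.reg, ← hall, ← hT, hf]
      simp
    · intro i t ht z hz
      obtain ⟨h1, h2, h3⟩ := (hgood (f i)).curve t ht z hz
      exact ⟨h1, h2, h3, rfl⟩
    · intro i
      exact (hgood (f i)).cd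
    · intro i
      exact (hgood (f i)).cds

end Pool.Agent.H91.Nev
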